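import Mathlib

/-!
# Every finite connected graph is a confluent image of a finite connected vertex-transitive graph

Graphs here are reflexive symmetric relations (every vertex carries a loop), as in the problem.
The cover is the Cayley graph of the symmetric group on the vertices of `H`, generated by the
transpositions along the edges of `H`, and the map is evaluation at a base vertex.
-/

namespace Pool.Agent.Results.MP_be9f3f_co.ConfluentCover

universe u

/-- A graph on the vertex set `V`: a reflexive and symmetric edge relation. -/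
structure RGraph (V : Type u) where
  /-- the edge relation -/
  E : V → V → Prop
  /-- every vertex carries a loop -/
  refl' : ∀ a, E a a
  /-- edges are unoriented -/
  symm' : ∀ a b, E a b → E b a

variable {V W : Type u}

/-- A homomorphism: edges go to edges (possibly to loops). -/
def IsHom (A : RGraph V) (B : RGraph W) (f : V → W) : Prop :=
  ∀ a b, A.E a b → B.E (f a) (f b)

/-- An epimorphism: a homomorphism that is surjective on vertices and on edges. -/
def IsEpi (A : RGraph V) (B : RGraph W) (f : V → W) : Prop :=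
  IsHom A B f ∧ Function.Surjective f ∧
    ∀ x y, B.E x y → ∃ a b, A.E a b ∧ f a = x ∧ f b = y

/-- An isomorphism: an injective epimorphism. -/
def IsIsom (A : RGraph V) (B : RGraph W) (f : V → W) : Prop :=
  Function.Injective f ∧ IsEpi A B f

/-- A set of vertices is connected if it cannot be split into two nonempty parts
with no edge between them. -/
def SetConnected (A : RGraph V) (S : Set V) : Prop :=
  ¬ ∃ P Q : Set V, P.Nonempty ∧ Q.Nonempty ∧ Disjoint P Q ∧ P ∪ Q = S ∧
    ∀ p ∈ P, ∀ q ∈ Q, ¬ A.E p q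

/-- A component of `S`: a maximal connected subset of `S`. -/
def IsComponentOf (A : RGraph V) (S C : Set V) : Prop :=
  C ⊆ S ∧ SetConnected A C ∧ ∀ D : Set V, D ⊆ S → SetConnected A D → C ⊆ D → D = C

/-- A graph is connected if its vertex set is. -/
def Connected (A : RGraph V) : Prop := SetConnected A Set.univ

/-- Confluent epimorphism: for every connected `Q` and every component `C` of the preimage of `Q`,
the image of `C` is `Q`. -/
def IsConfluentEpi (A : RGraph V) (B : RGraph W) (f : V → W) : Prop :=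
  IsEpi A B f ∧ ∀ Q : Set W, SetConnected B Q →
    ∀ C : Set V, IsComponentOf A (f ⁻¹' Q) C → f '' C = Q

/-- Homogeneous (vertex-transitive) graph. -/
def Homogeneous (A : RGraph V) : Prop :=
  ∀ x y : V, ∃ g : V → V, IsIsom A A g ∧ g x = y

/-- Cayley graph of the symmetric group on `V` generated by the transpositions along the
edges of `H`. -/
def cay [DecidableEq V] (H : RGraph V) : RGraph (Equiv.Perm V) where
  E g h := g = h ∨ ∃ a b, H.E a b ∧ h = Equiv.swap a b * g
  refl' g := Or.inl rfl
  symm' g h := by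
    rintro (rfl | ⟨a, b, hab, rfl⟩)
    · exact Or.inl rfl
    · refine Or.inr ⟨a, b, hab, ?_⟩
      rw [← mul_assoc, Equiv.swap_mul_self, one_mul]

lemma closure_eq_top [DecidableEq V] [Finite V] (H : RGraph V) (hH : Connected H) :
    Subgroup.closure {s : Equiv.Perm V | ∃ a b, H.E a b ∧ s = Equiv.swap a b} = ⊤ := by
  set K := Subgroup.closure {s : Equiv.Perm V | ∃ a b, H.E a b ∧ s = Equiv.swap a b} with hK
  have key : ∀ a b : V, Equiv.swap a b ∈ K := by
    intro a b
    by_contra hab
    apply hH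
    refine ⟨{x | Equiv.swap a x ∈ K}, {x | Equiv.swap a x ∉ K}, ⟨a, ?_⟩, ⟨b, hab⟩, ?_, ?_, ?_⟩
    · simp only [Set.mem_ofPred_eq, Equiv.swap_self]
      exact K.one_mem
    · rw [Set.disjoint_left]
      intro x hx hx'
      exact hx' hx
    · ext x
      simp only [Set.mem_union, Set.mem_ofPred_eq, Set.mem_univ, iff_true]
      exact em _
    · intro p hp q hq hpq
      apply hq
      have h1 : Equiv.swap p q ∈ K := Subgroup.subset_closure ⟨p, q, hpq, rfl⟩
      exact SubmonoidClass.swap_mem_trans K hp h1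
  rw [eq_top_iff, ← Equiv.Perm.closure_isSwap, Subgroup.closure_le]
  rintro s ⟨a, b, -, rfl⟩
  exact key a b

lemma cay_connected [DecidableEq V] [Finite V] (H : RGraph V) (hH : Connected H) :
    Connected (cay H) := by
  rintro ⟨P, Q, ⟨p, hp⟩, ⟨q, hq⟩, hd, hPQ, hno⟩
  have hstep : ∀ a b, H.E a b → ∀ g ∈ P, Equiv.swap a b * g ∈ P := by
    intro a b hab g hg
    by_contra hcon
    have hQ : Equiv.swap a b * g ∈ Q := by
      have : Equiv.swap a b * g ∈ P ∪ Q := by rw [hPQ]; trivial
      exact this.resolve_left hcon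
    exact hno g hg _ hQ (Or.inr ⟨a, b, hab, rfl⟩)
  have hmem : ∀ s : Equiv.Perm V, ∀ g, g ∈ P ↔ s * g ∈ P := by
    intro s
    have hs : s ∈ Subgroup.closure {s : Equiv.Perm V | ∃ a b, H.E a b ∧ s = Equiv.swap a b} := by
      rw [closure_eq_top H hH]
      exact Subgroup.mem_top s
    refine Subgroup.closure_induction
      (p := fun (s : Equiv.Perm V) _ => ∀ g, g ∈ P ↔ s * g ∈ P) ?_ ?_ ?_ ?_ hs
    · rintro x ⟨a, b, hab, rfl⟩ g
      refine ⟨hstep a b hab g, fun h => ?_⟩
      have := hstep a b hab _ h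
      rwa [← mul_assoc, Equiv.swap_mul_self, one_mul] at this
    · intro g
      rw [one_mul]
    · intro x y _ _ hx hy g
      rw [mul_assoc, ← hx, ← hy]
    · intro x _ hx g
      rw [hx (x⁻¹ * g), ← mul_assoc, mul_inv_cancel, one_mul]
  have h1 := (hmem (q * p⁻¹) p).mp hp
  rw [mul_assoc, inv_mul_cancel, mul_one] at h1
  exact Set.disjoint_left.mp hd h1 hq

lemma cay_homogeneous [DecidableEq V] (H : RGraph V) : Homogeneous (cay H) := by
  intro x y
  refine ⟨fun g => g * (x⁻¹ * y), ⟨?_, ?_, ?_, ?_⟩, ?_⟩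
  · intro a b hab
    exact mul_right_cancel hab
  · rintro a b (rfl | ⟨u, v, huv, rfl⟩)
    · exact Or.inl rfl
    · exact Or.inr ⟨u, v, huv, mul_assoc _ _ _⟩
  · intro b
    exact ⟨b * (x⁻¹ * y)⁻¹, inv_mul_cancel_right b _⟩
  · intro a b hab
    refine ⟨a * (x⁻¹ * y)⁻¹, b * (x⁻¹ * y)⁻¹, ?_, inv_mul_cancel_right a _,
      inv_mul_cancel_right b _⟩
    rcases hab with rfl | ⟨u, v, huv, rfl⟩
    · exact Or.inl rfl
    · exact Or.inr ⟨u, v, huv, mul_assoc _ _ _⟩
  · simp

/-- Adding to a connected set a vertex joined to it keeps it connected. -/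
lemma setConnected_insert (A : RGraph V) {C : Set V} (hC : SetConnected A C) {g h : V}
    (hg : g ∈ C) (hgh : A.E g h) : SetConnected A (insert h C) := by
  rintro ⟨P, Q, hP, hQ, hd, hPQ, hno⟩
  -- wlog-free argument: restrict the splitting to `C`
  have hmem : ∀ x ∈ C, x ∈ P ∨ x ∈ Q := by
    intro x hx
    have : x ∈ P ∪ Q := by rw [hPQ]; exact Set.mem_insert_of_mem _ hx
    exact this
  have hh : h ∈ P ∨ h ∈ Q := by
    have : h ∈ P ∪ Q := by rw [hPQ]; exact Set.mem_insert _ _
    exact this
  -- if both parts meet `C`, contradiction with connectedness of `C`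
  have hnot : ¬ ((P ∩ C).Nonempty ∧ (Q ∩ C).Nonempty) := by
    rintro ⟨h1, h2⟩
    apply hC
    refine ⟨P ∩ C, Q ∩ C, h1, h2, ?_, ?_, ?_⟩
    · exact hd.mono Set.inter_subset_left Set.inter_subset_left
    · rw [← Set.union_inter_distrib_right]
      apply Set.inter_eq_right.mpr
      intro x hx
      exact hmem x hx
    · intro p hp q hq
      exact hno p hp.1 q hq.1
  have hsub : ∀ x, x ∈ P ∨ x ∈ Q → x = h ∨ x ∈ C := by
    intro x hx
    have : x ∈ P ∪ Q := hx
    rw [hPQ] at this
    exact this
  rcases hmem g hg with hgP | hgQ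
  · have hQC : ¬ (Q ∩ C).Nonempty := fun h2 => hnot ⟨⟨g, hgP, hg⟩, h2⟩
    obtain ⟨q, hq⟩ := hQ
    rcases hsub q (Or.inr hq) with rfl | hqC
    · exact hno g hgP q hq hgh
    · exact hQC ⟨q, hq, hqC⟩
  · have hPC : ¬ (P ∩ C).Nonempty := fun h2 => hnot ⟨h2, ⟨g, hgQ, hg⟩⟩
    obtain ⟨p, hp⟩ := hP
    rcases hsub p (Or.inl hp) with rfl | hpC
    · exact hno p hp g hgQ (A.symm' _ _ hgh)
    · exact hPC ⟨p, hp, hpC⟩

lemma setConnected_singleton (A : RGraph V) (x : V) : SetConnected A {x} := by
  rintro ⟨P, Q, ⟨p, hp⟩, ⟨q, hq⟩, hd, hPQ, hno⟩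
  have h1 : p ∈ ({x} : Set V) := by rw [← hPQ]; exact Or.inl hp
  have h2 : q ∈ ({x} : Set V) := by rw [← hPQ]; exact Or.inr hq
  rw [Set.mem_singleton_iff] at h1 h2
  subst h1
  subst h2
  exact Set.disjoint_left.mp hd hp hq

/-- An epimorphism onto a graph such that every vertex over `x` has a neighbour over every
neighbour of `x` is confluent. -/
lemma confluent_of_locally_surjective (A : RGraph V) (B : RGraph W) (f : V → W)
    (hf : IsEpi A B f) (hloc : ∀ a y, B.E (f a) y → ∃ b, A.E a b ∧ f b = y) :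
    IsConfluentEpi A B f := by
  refine ⟨hf, ?_⟩
  intro Q hQ C hC
  obtain ⟨hCS, hCc, hCmax⟩ := hC
  have hsub : f '' C ⊆ Q := by
    rintro _ ⟨c, hc, rfl⟩
    exact hCS hc
  by_contra hne
  obtain ⟨q, hqQ, hqC⟩ : ∃ q, q ∈ Q ∧ q ∉ f '' C := by
    by_contra hcon
    push Not at hcon
    exact hne (Set.Subset.antisymm hsub hcon)
  -- `C` is nonempty
  have hCne : C.Nonempty := by
    by_contra hemp
    rw [Set.not_nonempty_iff_eq_empty] at hemp
    obtain ⟨a, ha⟩ := hf.2.1 q
    have := hCmax {a} (by
      intro x hx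
      rw [Set.mem_singleton_iff] at hx
      subst hx
      show f x ∈ Q
      rw [ha]
      exact hqQ) (setConnected_singleton A a) (by rw [hemp]; exact Set.empty_subset _)
    rw [hemp] at this
    exact Set.singleton_ne_empty a this
  apply hQ
  refine ⟨f '' C, Q \ f '' C, hCne.image f, ⟨q, hqQ, hqC⟩, Set.disjoint_sdiff_right, ?_, ?_⟩
  · exact Set.union_sdiff_cancel hsub
  · rintro _ ⟨c, hc, rfl⟩ y ⟨hyQ, hyC⟩ hcy
    obtain ⟨b, hcb, hby⟩ := hloc c y hcy
    have hb : insert b C = C := hCmax (insert b C) (by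
      intro x hx
      rcases hx with rfl | hx
      · show f x ∈ Q
        rw [hby]
        exact hyQ
      · exact hCS hx) (setConnected_insert A hCc hc hcb) (Set.subset_insert _ _)
    apply hyC
    refine ⟨b, ?_, hby⟩
    rw [← hb]
    exact Set.mem_insert _ _

lemma cay_hom [DecidableEq V] (H : RGraph V) (v : V) :
    IsHom (cay H) H (fun g : Equiv.Perm V => g v) := by
  rintro g h (rfl | ⟨a, b, hab, rfl⟩)
  · exact H.refl' _
  · simp only [Equiv.Perm.coe_mul, Function.comp_apply]
    by_cases h1 : g v = a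
    · rw [h1, Equiv.swap_apply_left]
      exact hab
    · by_cases h2 : g v = b
      · rw [h2, Equiv.swap_apply_right]
        exact H.symm' _ _ hab
      · rw [Equiv.swap_apply_of_ne_of_ne h1 h2]
        exact H.refl' _

lemma cay_loc [DecidableEq V] (H : RGraph V) (v : V) (g : Equiv.Perm V) (y : V)
    (h : H.E (g v) y) : ∃ k : Equiv.Perm V, (cay H).E g k ∧ k v = y :=
  ⟨Equiv.swap (g v) y * g, Or.inr ⟨g v, y, h, rfl⟩, by simp⟩

/-- **Answer to Q1 (yes).** Every finite connected graph `H` admits a confluent epimorphism from a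
finite connected homogeneous (vertex-transitive) graph `G`. -/
theorem result (V : Type u) [Finite V] (H : RGraph V) (hH : Connected H) :
    ∃ (W : Type u) (_ : Finite W) (G : RGraph W) (f : W → V),
      Connected G ∧ Homogeneous G ∧ IsConfluentEpi G H f := by
  classical
  rcases isEmpty_or_nonempty V with hV | ⟨⟨v⟩⟩
  · refine ⟨V, inferInstance, H, id, hH, fun x => isEmptyElim x, ?_⟩
    apply confluent_of_locally_surjective
    · exact ⟨fun a => isEmptyElim a, Function.surjective_id, fun x => isEmptyElim x⟩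
    · exact fun a => isEmptyElim a
  · refine ⟨Equiv.Perm V, inferInstance, cay H, fun g => g v, cay_connected H hH,
      cay_homogeneous H, ?_⟩
    apply confluent_of_locally_surjective
    · refine ⟨cay_hom H v, fun x => ⟨Equiv.swap v x, by simp⟩, fun x y hxy => ?_⟩
      obtain ⟨k, hk1, hk2⟩ := cay_loc H v (Equiv.swap v x) y (by simpa using hxy)
      exact ⟨Equiv.swap v x, k, hk1, by simp, hk2⟩
    · exact fun g y => cay_loc H v g y

end Pool.Agent.Results.MP_be9f3f_co.ConfluentCover
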